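import Pool.Agent.Helper2.BI.St

set_option autoImplicit false

namespace Pool.Agent.Helper75.BI

open Finset Filter
open Pool.Agent.Helper2.BI

theorem fr_eq_sum (b : ℕ →₀ ℕ) : fr b = b.sum (fun q n => (n : ℝ) / q) := rfl

theorem fr_zero : fr 0 = 0 := by simp [fr]

theorem fr_add (b b' : ℕ →₀ ℕ) : fr (b + b') = fr b + fr b' := by
  rw [fr_eq_sum, fr_eq_sum, fr_eq_sum]
  refine Finsupp.sum_add_index' ?_ ?_
  · intro a; simp
  · intro a m n; push_cast; ring

theorem fr_single (q c : ℕ) : fr (Finsupp.single q c) = (c : ℝ) / q := by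
  rw [fr_eq_sum, Finsupp.sum_single_index]
  simp

theorem mem_Ix {S : Finset ℕ} {k : ℕ} {b : ℕ →₀ ℕ} :
    b ∈ Ix S k ↔ (b.support ⊆ S ∧ ∀ i ∈ S, b i < i) ∧ b.support.card = k := by
  unfold Ix
  rw [mem_filter, Finset.mem_finsupp_iff]
  simp [mem_range]

theorem zero_mem_Ix {S : Finset ℕ} (hS : ∀ q ∈ S, q.Prime) : (0 : ℕ →₀ ℕ) ∈ Ix S 0 := by
  rw [mem_Ix]
  refine ⟨⟨by simp, fun i hi => ?_⟩, by simp⟩
  simpa using (hS i hi).pos

theorem base_case (B S : Finset ℕ) (w : ℝ) (hS : ∀ q ∈ S, q.Prime) (α : ℝ) :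
    (S.card.choose 0 : ℝ) * w ^ 0 * ‖ES B α‖ ^ 2 ≤ ∑ b ∈ Ix S 0, ‖ES B (α + fr b)‖ ^ 2 := by
  have h := Finset.single_le_sum (f := fun b => ‖ES B (α + fr b)‖ ^ 2)
    (fun b _ => by positivity) (zero_mem_Ix hS)
  simp only [fr_zero, add_zero] at h
  simpa using h

theorem hL2 : L2 := by
  intro B S w hw
  induction S using Finset.induction_on with
  | empty =>
    intro hS _ k α
    rcases k with _ | k
    · exact base_case B ∅ w hS α
    · simp only [Finset.card_empty, Nat.choose_zero_succ, Nat.cast_zero, zero_mul]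
      positivity
  | insert q S hq ih =>
    intro hS hw2 k α
    have hS' : ∀ q' ∈ S, q'.Prime := fun q' h => hS q' (mem_insert_of_mem h)
    have hw3 := fun q' (h : q' ∈ S) => hw2 q' (mem_insert_of_mem h)
    have ih' := ih hS' hw3
    have hqp := hS q (mem_insert_self _ _)
    rcases k with _ | k
    · exact base_case B (insert q S) w hS α
    · -- zero value at q
      have hz : ∀ j, ∀ b ∈ Ix S j, b q = 0 := by
        intro j b hb
        rw [mem_Ix] at hb
        by_contra hne
        exact hq (hb.1.1 (Finsupp.mem_support_iff.2 hne))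
      obtain ⟨A2, hA2⟩ : ∃ A2 : Finset (ℕ →₀ ℕ), A2 = (Ix S k ×ˢ Ico 1 q).image
        (fun x => x.1 + Finsupp.single q x.2) := ⟨_, rfl⟩
      have hinj : Set.InjOn (fun x : (ℕ →₀ ℕ) × ℕ => x.1 + Finsupp.single q x.2)
          ((Ix S k ×ˢ Ico 1 q : Finset _) : Set _) := by
        rintro ⟨b, c⟩ hb ⟨b', c'⟩ hb' h
        simp only [coe_product, Set.mem_prod, mem_coe] at hb hb'
        simp only at h
        have h1 := hz k b hb.1
        have h2 := hz k b' hb'.1
        have h3 : c = c' := by
          have := DFunLike.congr_fun h q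
          simpa [h1, h2] using this
        subst h3
        have h4 : b = b' := by
          exact add_right_cancel h
        rw [h4]
      have hsub1 : Ix S (k + 1) ⊆ Ix (insert q S) (k + 1) := by
        intro b hb
        have hz1 := hz _ b hb
        rw [mem_Ix] at hb ⊢
        refine ⟨⟨hb.1.1.trans (subset_insert _ _), fun i hi => ?_⟩, hb.2⟩
        rcases mem_insert.1 hi with h | h
        · subst h
          rw [hz1]
          exact hqp.pos
        · exact hb.1.2 i h
      have hsub2 : A2 ⊆ Ix (insert q S) (k + 1) := by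
        intro b hb
        rw [hA2, mem_image] at hb
        obtain ⟨⟨b0, c⟩, hbc, rfl⟩ := hb
        rw [mem_product] at hbc
        obtain ⟨hb0, hc⟩ := hbc
        simp only at hb0 hc ⊢
        have hz1 := hz _ b0 hb0
        rw [mem_Ico] at hc
        rw [mem_Ix] at hb0 ⊢
        have hsupp : (b0 + Finsupp.single q c).support = insert q b0.support := by
          ext i
          simp only [Finsupp.mem_support_iff, Finsupp.add_apply, mem_insert]
          by_cases hi : i = q
          · subst hi
            simp [hz1]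
            omega
          · simp [hi, Finsupp.single_apply, Ne.symm hi]
        refine ⟨⟨?_, fun i hi => ?_⟩, ?_⟩
        · rw [hsupp]
          exact insert_subset_insert _ hb0.1.1
        · rw [Finsupp.add_apply]
          by_cases hiq : i = q
          · subst hiq
            rw [hz1]
            simpa using hc.2
          · rw [Finsupp.single_apply, if_neg (Ne.symm hiq), add_zero]
            exact hb0.1.2 i (mem_of_mem_insert_of_ne hi hiq)
        · rw [hsupp, card_insert_of_notMem, hb0.2]
          simp [hz1]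
      have hdisj : Disjoint (Ix S (k + 1)) A2 := by
        rw [Finset.disjoint_left]
        intro b hb hb2
        have hz1 := hz _ b hb
        rw [hA2, mem_image] at hb2
        obtain ⟨⟨b0, c⟩, hbc, rfl⟩ := hb2
        rw [mem_product, mem_Ico] at hbc
        simp only [Finsupp.add_apply, Finsupp.single_eq_same] at hz1
        simp only at hbc
        omega
      have hsum : ∑ b ∈ Ix S (k + 1), ‖ES B (α + fr b)‖ ^ 2 + ∑ b ∈ A2, ‖ES B (α + fr b)‖ ^ 2 ≤
          ∑ b ∈ Ix (insert q S) (k + 1), ‖ES B (α + fr b)‖ ^ 2 := by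
        rw [← Finset.sum_union hdisj]
        exact Finset.sum_le_sum_of_subset_of_nonneg (union_subset hsub1 hsub2)
          (fun b _ _ => by positivity)
      have h2 : w * ((S.card.choose k : ℝ) * w ^ k * ‖ES B α‖ ^ 2) ≤
          ∑ b ∈ A2, ‖ES B (α + fr b)‖ ^ 2 := by
        rw [hA2, Finset.sum_image hinj, Finset.sum_product]
        calc w * ((S.card.choose k : ℝ) * w ^ k * ‖ES B α‖ ^ 2) ≤
            w * ∑ b ∈ Ix S k, ‖ES B (α + fr b)‖ ^ 2 := mul_le_mul_of_nonneg_left (ih' k α) hw
          _ = ∑ b ∈ Ix S k, w * ‖ES B (α + fr b)‖ ^ 2 := by rw [Finset.mul_sum]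
          _ ≤ ∑ b ∈ Ix S k, ∑ c ∈ Ico 1 q, ‖ES B (α + fr (b + Finsupp.single q c))‖ ^ 2 := by
            refine Finset.sum_le_sum (fun b _ => ?_)
            have := hw2 q (mem_insert_self _ _) (α + fr b)
            refine this.trans (le_of_eq (Finset.sum_congr rfl (fun c _ => ?_)))
            rw [fr_add, fr_single, add_assoc]
      have h1 := ih' (k + 1) α
      rw [card_insert_of_notMem hq, Nat.choose_succ_succ]
      push_cast
      have e : ((S.card.choose k : ℝ) + (S.card.choose (k + 1) : ℝ)) * w ^ (k + 1) * ‖ES B α‖ ^ 2 =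
          (S.card.choose (k + 1) : ℝ) * w ^ (k + 1) * ‖ES B α‖ ^ 2 +
          w * ((S.card.choose k : ℝ) * w ^ k * ‖ES B α‖ ^ 2) := by ring
      rw [e]
      linarith

end Pool.Agent.Helper75.BI
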